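import Pool.Agent.W25.TF.Stm

set_option autoImplicit false
open Filter Topology Finset
open scoped BoundedContinuousFunction

/-! Project TF (helper142), part TF-LOC: few bad residues. -/

namespace Pool.Agent.W25.TF.Loc

open Pool.Agent.W634.BQ Pool.Agent.W505.BQ Pool.Agent.W27.FB Pool.Agent.W142.TF Pool.Agent.W25.TF

/-- the bad residues -/
noncomputable def bad (p : ℕ) (η : ℝ) (Φ : ℤ → ℝ) : Finset ℕ := by
  classical
  exact (range p).filter fun z => Φ z ≤ η ∨ Φ ((z : ℤ) - p) ≤ η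

theorem mem_bad (p : ℕ) (η : ℝ) (Φ : ℤ → ℝ) (z : ℕ) :
    z ∈ bad p η Φ ↔ z < p ∧ (Φ z ≤ η ∨ Φ ((z : ℤ) - p) ≤ η) := by
  unfold bad
  simp

theorem card_bad (p : ℕ) {η : ℝ} (hη : 0 < η) (Φ Ψ : ℤ → ℝ) (hΨ : ∀ z, 0 ≤ Ψ z ∧ Ψ z ≤ 1)
    (h1 : ∀ z : ℕ, z < p → |Ψ z - Ψ ((z : ℤ) - p)| ≤ η)
    (h2 : (1 / 2 + 6 * η) * p ≤ ∑ z ∈ range p, Ψ z)
    (h3 : ∑ z ∈ range p, ((Φ z - Ψ z) ^ 2 + (Φ ((z : ℤ) - p) - Ψ ((z : ℤ) - p)) ^ 2) ≤ η ^ 3 * p) :
    ((bad p η Φ).card : ℝ) ≤ (1 / 2 - 2 * η) * p := by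
  classical
  set Z1 : Finset ℕ := (range p).filter fun z => Ψ z ≤ 3 * η with hZ1
  set Z2 : Finset ℕ := (range p).filter fun z =>
    η ^ 2 < (Φ z - Ψ z) ^ 2 + (Φ ((z : ℤ) - p) - Ψ ((z : ℤ) - p)) ^ 2 with hZ2
  have hsub : bad p η Φ ⊆ Z1 ∪ Z2 := by
    intro z hz
    rw [mem_bad] at hz
    obtain ⟨hzp, hz⟩ := hz
    rw [Finset.mem_union]
    by_contra hcon
    push Not at hcon
    obtain ⟨c1, c2⟩ := hcon
    have d1 : 3 * η < Ψ z := by
      by_contra hc
      push Not at hc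
      exact c1 (by rw [hZ1, Finset.mem_filter]; exact ⟨Finset.mem_range.2 hzp, hc⟩)
    have d2 : (Φ z - Ψ z) ^ 2 + (Φ ((z : ℤ) - p) - Ψ ((z : ℤ) - p)) ^ 2 ≤ η ^ 2 := by
      by_contra hc
      push Not at hc
      exact c2 (by rw [hZ2, Finset.mem_filter]; exact ⟨Finset.mem_range.2 hzp, hc⟩)
    have e1 : |Φ z - Ψ z| ≤ η := by
      apply abs_le_of_sq_le_sq _ hη.le
      nlinarith [sq_nonneg (Φ ((z : ℤ) - p) - Ψ ((z : ℤ) - p))]
    have e2 : |Φ ((z : ℤ) - p) - Ψ ((z : ℤ) - p)| ≤ η := by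
      apply abs_le_of_sq_le_sq _ hη.le
      nlinarith [sq_nonneg (Φ z - Ψ z)]
    have e3 := h1 z hzp
    rw [abs_le] at e1 e2 e3
    rcases hz with hz | hz <;> linarith
  have hp0 : (0 : ℝ) ≤ p := Nat.cast_nonneg p
  have hZ1c : (Z1.card : ℝ) ≤ p := by
    have : Z1.card ≤ (range p).card := Finset.card_filter_le _ _
    rw [Finset.card_range] at this
    exact_mod_cast this
  have hc1 : (Z1.card : ℝ) ≤ (1 / 2 - 3 * η) * p := by
    have e : ∑ z ∈ range p, Ψ z ≤ ∑ z ∈ range p, (1 - if z ∈ Z1 then (1 - 3 * η) else 0) := by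
      refine Finset.sum_le_sum fun z hz => ?_
      by_cases hz1 : z ∈ Z1
      · rw [if_pos hz1]
        have : Ψ z ≤ 3 * η := (Finset.mem_filter.1 hz1).2
        linarith
      · rw [if_neg hz1]
        linarith [(hΨ z).2]
    have e2 : ∑ z ∈ range p, (1 - if z ∈ Z1 then (1 - 3 * η) else (0 : ℝ)) =
        p - Z1.card * (1 - 3 * η) := by
      rw [Finset.sum_sub_distrib, Finset.sum_const, Finset.card_range, nsmul_eq_mul, mul_one,
        Finset.sum_ite_mem, Finset.inter_eq_right.2 (Finset.filter_subset _ _), Finset.sum_const,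
        nsmul_eq_mul]
    rw [e2] at e
    nlinarith
  have hc2 : (Z2.card : ℝ) ≤ η * p := by
    have e : (Z2.card : ℝ) * η ^ 2 ≤ η ^ 3 * p := by
      calc (Z2.card : ℝ) * η ^ 2 = ∑ z ∈ Z2, η ^ 2 := by
            rw [Finset.sum_const, nsmul_eq_mul]
        _ ≤ ∑ z ∈ Z2, ((Φ z - Ψ z) ^ 2 + (Φ ((z : ℤ) - p) - Ψ ((z : ℤ) - p)) ^ 2) :=
            Finset.sum_le_sum fun z hz => (Finset.mem_filter.1 hz).2.le
        _ ≤ ∑ z ∈ range p, ((Φ z - Ψ z) ^ 2 + (Φ ((z : ℤ) - p) - Ψ ((z : ℤ) - p)) ^ 2) :=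
            Finset.sum_le_sum_of_subset_of_nonneg (Finset.filter_subset _ _)
              fun z _ _ => by positivity
        _ ≤ _ := h3
    have hη2 : 0 < η ^ 2 := by positivity
    have : (Z2.card : ℝ) * η ^ 2 ≤ (η * p) * η ^ 2 := by
      calc _ ≤ η ^ 3 * p := e
        _ = _ := by ring
    exact le_of_mul_le_mul_right this hη2
  have hcard : (bad p η Φ).card ≤ Z1.card + Z2.card :=
    (Finset.card_le_card hsub).trans (Finset.card_union_le _ _)
  have hcard' : ((bad p η Φ).card : ℝ) ≤ Z1.card + Z2.card := by exact_mod_cast hcard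
  linarith

theorem loc : S_pts → S_loc4 := by
  intro hpts p l hp hl η hη hηl Φ Ψ hΨ h
  classical
  have : NeZero p := ⟨hp.ne_zero⟩
  obtain ⟨x, hx⟩ := hpts 3 p l hp (by omega)
    (fun i j => (bad p η (Φ i j)).image fun z : ℕ => (z : ZMod p)) (by
      intro i j hij
      refine Finset.card_image_le.trans ?_
      obtain ⟨a1, a2, a3⟩ := h i j hij j.2
      have := card_bad p hη (Φ i j) (Ψ i j) (hΨ i j) a1 a2 a3
      have h2 : ((bad p η (Φ i j)).card : ℝ) ≤ ((2 * l : ℕ) : ℝ) := by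
        push_cast
        linarith
      exact_mod_cast h2)
  refine ⟨fun j => if hj : j < 4 then (x ⟨j, hj⟩).val else 0, ?_, ?_⟩
  · intro j
    by_cases hj : j < 4
    · simp only [hj, dif_pos]
      exact ZMod.val_lt _
    · simp only [hj, dif_neg, not_false_eq_true]
      exact hp.pos
  · intro i j hij hj
    have hi : i < 4 := hij.trans hj
    simp only [hi, hj, dif_pos]
    set a : ℕ := (x ⟨j, hj⟩).val with ha
    set b : ℕ := (x ⟨i, hi⟩).val with hb
    have ha' : a < p := ZMod.val_lt _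
    have hb' : b < p := ZMod.val_lt _
    have hxa : x ⟨j, hj⟩ = ((a : ℕ) : ZMod p) := (ZMod.natCast_zmod_val _).symm
    have hxb : x ⟨i, hi⟩ = ((b : ℕ) : ZMod p) := (ZMod.natCast_zmod_val _).symm
    have hnot := hx ⟨i, hi⟩ ⟨j, hj⟩ hij
    have key : ∀ w : ℕ, w < p → ((w : ℕ) : ZMod p) = x ⟨j, hj⟩ - x ⟨i, hi⟩ →
        η < Φ i j w ∧ η < Φ i j ((w : ℤ) - p) := by
      intro w hw hwx
      have hwb : w ∉ bad p η (Φ i j) := by
        intro hmem
        apply hnot
        rw [← hwx]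
        exact Finset.mem_image_of_mem _ hmem
      rw [mem_bad] at hwb
      push Not at hwb
      exact hwb hw
    rcases le_total b a with hab | hab
    · obtain ⟨w, hw⟩ := Nat.exists_eq_add_of_le hab
      have h1 := (key w (by omega) (by rw [hxa, hxb, hw]; push_cast; ring)).1
      have e : (a : ℤ) - b = w := by rw [hw]; push_cast; ring
      rw [e]
      exact h1
    · have h1 := key ((a + p - b) % p) (Nat.mod_lt _ hp.pos) (by
        rw [hxa, hxb, ZMod.natCast_mod, Nat.cast_sub (by omega)]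
        push_cast
        simp)
      by_cases hEq : a = b
      · have e0 : (a + p - b) % p = 0 := by
          rw [hEq]
          simp
        rw [e0] at h1
        have e : (a : ℤ) - b = ((0 : ℕ) : ℤ) := by rw [hEq]; simp
        rw [e]
        exact h1.1
      · have e0 : (a + p - b) % p = a + p - b := Nat.mod_eq_of_lt (by omega)
        rw [e0] at h1
        have e : (a : ℤ) - b = ((a + p - b : ℕ) : ℤ) - p := by
          rw [Nat.cast_sub (by omega)]
          push_cast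
          ring
        rw [e]
        exact h1.2

end Pool.Agent.W25.TF.Loc
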