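import Pool.Agent.W25.TF.Stm

set_option autoImplicit false
open Filter Topology Finset
open scoped BoundedContinuousFunction

/-! Project TF: lower bound for the iterated mean of the almost periodic configuration. -/

namespace Pool.Agent.W25.TF.Low

open Pool.Agent.W634.BQ Pool.Agent.W505.BQ Pool.Agent.W27.FB Pool.Agent.W142.TF Pool.Agent.W25.TF

theorem cls_sp (q : ℕ) (r x : ℤ) :
    (cls q r x = 1 ∧ (q : ℤ) ∣ x - r) ∨ (cls q r x = 0 ∧ ¬ (q : ℤ) ∣ x - r) := by
  by_cases h : (q : ℤ) ∣ x - r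
  · left
    exact ⟨ind_mem h, h⟩
  · right
    exact ⟨ind_notMem h, h⟩

theorem cls_per {q : ℕ} {r x s : ℤ} (h : (q : ℤ) ∣ s) : cls q r (x + s) = cls q r x := by
  have e : ((q : ℤ) ∣ x + s - r) ↔ ((q : ℤ) ∣ x - r) := by
    have : x + s - r = (x - r) + s := by ring
    rw [this]
    exact dvd_add_left h
  rcases cls_sp q r (x + s) with ⟨h1, h2⟩ | ⟨h1, h2⟩ <;> rcases cls_sp q r x with ⟨h3, h4⟩ | ⟨h3, h4⟩
  · rw [h1, h3]
  · exact absurd (e.1 h2) h4
  · exact absurd (e.2 h4) h2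
  · rw [h1, h3]

theorem m_cls_sh {m : (ℤ →ᵇ ℝ) →ₗ[ℝ] ℝ} (hm : IsMean m) {q : ℕ} {r s : ℤ} (h : (q : ℤ) ∣ s)
    (g : ℤ →ᵇ ℝ) : m (cls q r * sh s g) = m (cls q r * g) := by
  have e : cls q r * sh s g = sh s (cls q r * g) := by
    ext n
    rw [BoundedContinuousFunction.coe_mul, Pi.mul_apply, sh_apply, sh_apply,
      BoundedContinuousFunction.coe_mul, Pi.mul_apply, cls_per h]
  rw [e, m_sh hm]

theorem sum_apply' {ι : Type*} (s : Finset ι) (f : ι → (ℤ →ᵇ ℝ)) (x : ℤ) :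
    (∑ i ∈ s, f i) x = ∑ i ∈ s, f i x := by
  rw [BoundedContinuousFunction.coe_sum, Finset.sum_apply]

/-- the iterated mean of a product -/
theorem It_prod {m : ℕ → ((ℤ →ᵇ ℝ) →ₗ[ℝ] ℝ)} (hm : ∀ j, IsMean (m j)) (n : ℕ)
    (G : ℕ → (ℕ → ℤ) → ℤ → ℝ) {C : ℝ} (hG : ∀ l a t, |G l a t| ≤ C)
    (hdep : ∀ l, l < n → ∀ a b : ℕ → ℤ, (∀ i < l, a i = b i) → G l a = G l b) (μ : ℕ → ℝ)
    (hμ : ∀ l < n, ∀ a, m l (toB (G l a)) = μ l) :
    It m n (fun a => ∏ l ∈ range n, G l a (a l)) = ∏ l ∈ range n, μ l := by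
  induction n with
  | zero => simp [It]
  | succ n ih =>
    show It m n (fun a => m n (toB (fun t => ∏ l ∈ range (n + 1),
      G l (Function.update a n t) (Function.update a n t l)))) = _
    have e : ∀ a : ℕ → ℤ, m n (toB (fun t => ∏ l ∈ range (n + 1),
        G l (Function.update a n t) (Function.update a n t l))) =
        μ n * ∏ l ∈ range n, G l a (a l) := by
      intro a
      have e1 : ∀ t, ∏ l ∈ range (n + 1), G l (Function.update a n t) (Function.update a n t l) =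
          (∏ l ∈ range n, G l a (a l)) * G n a t := by
        intro t
        rw [prod_range_succ, Function.update_self, hdep n (by omega) (Function.update a n t) a
          (fun i hi => Function.update_of_ne (by omega) _ _)]
        congr 1
        refine prod_congr rfl fun l hl => ?_
        have hl := mem_range.1 hl
        rw [hdep l (by omega) (Function.update a n t) a
          (fun i hi => Function.update_of_ne (by omega) _ _), Function.update_of_ne (by omega)]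
      simp only [e1]
      rw [toB_smul (hG n a), map_smul, smul_eq_mul, hμ n (by omega) a, mul_comm]
    simp only [e]
    rw [It_smul hm n (C := C ^ n), ih (fun l hl => hdep l (by omega)) (fun l hl => hμ l (by omega)),
      prod_range_succ, mul_comm]
    intro a
    rw [Finset.abs_prod]
    refine (prod_le_prod (fun _ _ => abs_nonneg _) (fun l _ => hG l a (a l))).trans_eq ?_
    rw [prod_const, card_range]

/-- the class sums are large -/
theorem lemA (hcls : S_cls) {m : (ℤ →ᵇ ℝ) →ₗ[ℝ] ℝ} (hm : IsMean m) {P : ℤ →ᵇ ℝ} {q S d p : ℕ} {r : ℤ}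
    {η : ℝ} (hη : 0 < η) (hq : 1 ≤ q) (hqS : q ∣ S)
    (hper : ∀ x y : ℤ, (q : ℤ) ∣ x - y →
      |∑ z ∈ range p, P (x + S * d * z) - ∑ z ∈ range p, P (y + S * d * z)| ≤ η * p)
    (hlow : (1 / 2 + 8 * η) / q ≤ m (cls q r * P)) {x : ℤ} (hx : (q : ℤ) ∣ x - r) :
    (1 / 2 + 6 * η) * p ≤ ∑ z ∈ range p, P (x + S * d * z) := by
  have hq0 : (0 : ℝ) < q := by exact_mod_cast hq
  have hqS' : (q : ℤ) ∣ (S : ℤ) := Int.natCast_dvd_natCast.2 hqS
  have e1 : m (cls q r * ∑ z ∈ range p, sh ((S : ℤ) * d * z) P) = p * m (cls q r * P) := by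
    rw [mul_sum, map_sum]
    have : ∀ z ∈ range p, m (cls q r * sh ((S : ℤ) * d * z) P) = m (cls q r * P) := fun z _ =>
      m_cls_sh hm (by rw [mul_assoc]; exact Dvd.dvd.mul_right hqS' _) P
    rw [sum_congr rfl this, sum_const, card_range, nsmul_eq_mul]
  have e2 : m (cls q r * ∑ z ∈ range p, sh ((S : ℤ) * d * z) P) ≤
      m ((∑ z ∈ range p, P (x + S * d * z) + η * p) • cls q r) := by
    refine m_mono hm fun t => ?_
    rw [BoundedContinuousFunction.coe_mul, Pi.mul_apply, sum_apply']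
    show _ ≤ (∑ z ∈ range p, P (x + S * d * z) + η * p) * cls q r t
    rcases cls_sp q r t with ⟨h1, h2⟩ | ⟨h1, h2⟩
    · rw [h1, one_mul, mul_one]
      have h3 : (q : ℤ) ∣ t - x := by
        have : t - x = (t - r) - (x - r) := by ring
        rw [this]
        exact dvd_sub h2 hx
      have h4 := (abs_le.1 (hper t x h3)).2
      have h5 : ∑ z ∈ range p, (sh ((S : ℤ) * d * z) P) t = ∑ z ∈ range p, P (t + S * d * z) :=
        sum_congr rfl fun z _ => sh_apply _ _ _
      rw [h5]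
      linarith
    · rw [h1, zero_mul, mul_zero]
  rw [e1, map_smul, smul_eq_mul, hcls.2.1 m hm q r hq] at e2
  have e3 : p * ((1 / 2 + 8 * η) / q) ≤ (∑ z ∈ range p, P (x + S * d * z) + η * p) * (1 / q) :=
    (mul_le_mul_of_nonneg_left hlow (Nat.cast_nonneg p)).trans e2
  rw [mul_div_assoc', mul_one_div, div_le_div_iff_of_pos_right hq0] at e3
  have hp0 : (0 : ℝ) ≤ p := Nat.cast_nonneg p
  nlinarith [mul_nonneg hη.le hp0]

/-- the error sum -/
noncomputable def Dd (g : ℤ →ᵇ ℝ) (S d p : ℕ) (x : ℤ) : ℝ :=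
  ∑ z ∈ range p, (g (x + S * d * z) + g (x + S * d * ((z : ℤ) - p)))

theorem Dd_bd {g : ℤ →ᵇ ℝ} (hg : ∀ x, 0 ≤ g x ∧ g x ≤ 1) (S d p : ℕ) (x : ℤ) :
    0 ≤ Dd g S d p x ∧ Dd g S d p x ≤ 2 * p := by
  unfold Dd
  refine ⟨sum_nonneg fun z _ => add_nonneg (hg _).1 (hg _).1, ?_⟩
  have : ∀ z ∈ range p, g (x + S * d * z) + g (x + S * d * ((z : ℤ) - p)) ≤ 2 := fun z _ => by
    have h1 := (hg (x + S * d * z)).2
    have h2 := (hg (x + S * d * ((z : ℤ) - p))).2
    linarith
  have h := sum_le_card_nsmul (range p) _ _ this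
  rw [card_range, nsmul_eq_mul] at h
  linarith

theorem lemB {m : (ℤ →ᵇ ℝ) →ₗ[ℝ] ℝ} (hm : IsMean m) {g : ℤ →ᵇ ℝ} (hg : ∀ x, 0 ≤ g x ∧ g x ≤ 1)
    {q S d p : ℕ} {r s : ℤ} (hqS : q ∣ S) (hs : (q : ℤ) ∣ s) :
    m (toB (fun t => cls q r t * Dd g S d p (t - s))) = 2 * p * m (cls q r * g) := by
  have hqS' : (q : ℤ) ∣ (S : ℤ) := Int.natCast_dvd_natCast.2 hqS
  have hb : ∀ t, |cls q r t * Dd g S d p (t - s)| ≤ 2 * p := by
    intro t
    have h1 := Dd_bd hg S d p (t - s)
    rcases cls_sp q r t with ⟨h2, _⟩ | ⟨h2, _⟩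
    · rw [h2, one_mul, abs_of_nonneg h1.1]
      exact h1.2
    · rw [h2, zero_mul, abs_zero]
      positivity
  rw [toB_eq hb (cls q r * ∑ z ∈ range p, (sh (-s + S * d * z) g + sh (-s + S * d * ((z : ℤ) - p)) g))]
  · rw [mul_sum, map_sum]
    have : ∀ z ∈ range p, m (cls q r * (sh (-s + S * d * z) g + sh (-s + S * d * ((z : ℤ) - p)) g)) =
        2 * m (cls q r * g) := by
      intro z _
      have h1 : (q : ℤ) ∣ -s + S * d * z :=
        dvd_add (dvd_neg.2 hs) (by rw [mul_assoc]; exact Dvd.dvd.mul_right hqS' _)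
      have h2 : (q : ℤ) ∣ -s + S * d * ((z : ℤ) - p) :=
        dvd_add (dvd_neg.2 hs) (by rw [mul_assoc]; exact Dvd.dvd.mul_right hqS' _)
      rw [mul_add, map_add, m_cls_sh hm h1, m_cls_sh hm h2]
      ring
    rw [sum_congr rfl this, sum_const, card_range, nsmul_eq_mul]
    ring
  · intro t
    rw [BoundedContinuousFunction.coe_mul, Pi.mul_apply, sum_apply']
    congr 1
    unfold Dd
    refine sum_congr rfl fun z _ => ?_
    rw [BoundedContinuousFunction.coe_add, Pi.add_apply, sh_apply, sh_apply]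
    congr 2
    · ring
    · ring

/-- the shifts -/
def sz (S : ℕ → ℕ) (d : ℕ) (z : Fin 4 → ℕ) (j : ℕ) : ℤ :=
  if h : j < 4 then (S j : ℤ) * d * z ⟨j, h⟩ else 0

theorem FP_bd {e P : ℕ → (ℤ →ᵇ ℝ)} {c : ℕ → ℕ → ℕ} (he : ∀ j x, 0 ≤ e j x ∧ e j x ≤ 1)
    (hP : ∀ j < 4, ∀ x, 0 ≤ P j x ∧ P j x ≤ 1) (a : ℕ → ℤ) : 0 ≤ FP e P c 4 a ∧ FP e P c 4 a ≤ 1 := by
  unfold FP
  have h : ∀ j ∈ range 4, 0 ≤ e j (a j) * ∏ i ∈ range j, P j (a j - c j i * a i) ∧
      e j (a j) * ∏ i ∈ range j, P j (a j - c j i * a i) ≤ 1 := by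
    intro j hj
    have hj := mem_range.1 hj
    have h1 : 0 ≤ ∏ i ∈ range j, P j (a j - c j i * a i) := prod_nonneg fun i _ => (hP j hj _).1
    have h2 : ∏ i ∈ range j, P j (a j - c j i * a i) ≤ 1 :=
      prod_le_one (fun i _ => (hP j hj _).1) (fun i _ => (hP j hj _).2)
    exact ⟨mul_nonneg (he j _).1 h1, mul_le_one₀ (he j _).2 h1 h2⟩
  exact ⟨prod_nonneg fun j hj => (h j hj).1, prod_le_one (fun j hj => (h j hj).1) fun j hj => (h j hj).2⟩

/-- the pairs -/
def prs : Finset (ℕ × ℕ) := (range 4 ×ˢ range 4).filter fun x => x.1 < x.2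

theorem prs_card : prs.card = 6 := by decide

theorem mem_prs {i j : ℕ} : (i, j) ∈ prs ↔ i < j ∧ j < 4 := by
  unfold prs
  rw [mem_filter, mem_product, mem_range, mem_range]
  simp only
  omega

/-- the pointwise lower bound -/
theorem point (hloc : S_loc4) {P P' : ℕ → (ℤ →ᵇ ℝ)} {q S : ℕ → ℕ} {c : ℕ → ℕ → ℕ} {r : ℕ → ℤ} {η : ℝ}
    {p l d : ℕ} (hη : 0 < η) (hp : p.Prime) (hl : 4 * l + 1 ≤ p) (hl2 : (1 / 2 - 2 * η) * p ≤ 2 * l)
    (hP : ∀ j < 4, ∀ x, 0 ≤ P j x ∧ P j x ≤ 1) (hP' : ∀ j < 4, ∀ x, 0 ≤ P' j x ∧ P' j x ≤ 1)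
    (hqS : ∀ j < 4, q j ∣ S j) (hc : ∀ i j, i < j → j < 4 → q j ∣ c j i ∧ S j = c j i * S i)
    (hper : ∀ j < 4, ∀ x : ℤ, |P j (x + S j * d * p) - P j x| ≤ η)
    (hA : ∀ j, 1 ≤ j → j < 4 → ∀ x : ℤ, (q j : ℤ) ∣ x - r j →
      (1 / 2 + 6 * η) * p ≤ ∑ z ∈ range p, P j (x + S j * d * z)) (a : ℕ → ℤ) :
    η ^ 6 * ((∏ j ∈ range 4, cls (q j) (r j) (a j)) + -(1 / (η ^ 3 * p)) * ∑ x ∈ prs,
      ((∏ j ∈ range 4, cls (q j) (r j) (a j)) *
        Dd ((P' x.2 - P x.2) * (P' x.2 - P x.2)) (S x.2) d p (a x.2 - c x.2 x.1 * a x.1))) ≤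
    ∑ z ∈ Fintype.piFinset (fun _ : Fin 4 => range p),
      FP (fun j => cls (q j) (r j)) P' c 4 (a + sz S d z) := by
  have hp0 : (0 : ℝ) < p := by exact_mod_cast hp.pos
  have hF := fun b => FP_bd (e := fun j => cls (q j) (r j)) (c := c)
    (fun j x => ind_01 {a : ℤ | ((q j : ℕ) : ℤ) ∣ a - r j} x) hP' b
  have hsum0 : 0 ≤ ∑ z ∈ Fintype.piFinset (fun _ : Fin 4 => range p),
      FP (fun j => cls (q j) (r j)) P' c 4 (a + sz S d z) := sum_nonneg fun z _ => (hF _).1
  by_cases he : ∀ j < 4, cls (q j) (r j) (a j) = 1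
  · have hW : ∏ j ∈ range 4, cls (q j) (r j) (a j) = 1 :=
      prod_eq_one fun j hj => he j (mem_range.1 hj)
    rw [hW]
    simp only [one_mul]
    have hD0 : ∀ x ∈ prs, 0 ≤ Dd ((P' x.2 - P x.2) * (P' x.2 - P x.2)) (S x.2) d p
        (a x.2 - c x.2 x.1 * a x.1) := by
      intro x _
      unfold Dd
      refine sum_nonneg fun z _ => add_nonneg ?_ ?_ <;>
      · rw [BoundedContinuousFunction.coe_mul, Pi.mul_apply]
        exact mul_self_nonneg _
    by_cases hD : ∀ x ∈ prs, Dd ((P' x.2 - P x.2) * (P' x.2 - P x.2)) (S x.2) d p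
        (a x.2 - c x.2 x.1 * a x.1) ≤ η ^ 3 * p
    · -- the good case
      have hdj : ∀ j < 4, (q j : ℤ) ∣ a j - r j := by
        intro j hj
        rcases cls_sp (q j) (r j) (a j) with h | h
        · exact h.2
        · exact absurd (h.1.symm.trans (he j hj)) (by norm_num)
      obtain ⟨z, hz, hz2⟩ := hloc p l hp hl η hη hl2
        (fun i j w => P' j (a j - c j i * a i + S j * d * w))
        (fun i j w => if j < 4 then P j (a j - c j i * a i + S j * d * w) else 0)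
        (fun i j w => by
          split_ifs with h
          · exact hP j h _
          · exact ⟨le_refl _, zero_le_one⟩)
        (fun i j hij hj => by
          simp only [hj, if_true]
          refine ⟨fun w _ => ?_, ?_, ?_⟩
          · have h1 := hper j hj (a j - c j i * a i + S j * d * ((w : ℤ) - p))
            have e : a j - c j i * a i + S j * d * ((w : ℤ) - p) + S j * d * p =
                a j - c j i * a i + S j * d * w := by ring
            rw [e] at h1
            exact h1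
          · refine hA j (by omega) hj _ ?_
            have e : a j - c j i * a i - r j = (a j - r j) - c j i * a i := by ring
            rw [e]
            exact dvd_sub (hdj j hj)
              (Dvd.dvd.mul_right (Int.natCast_dvd_natCast.2 (hc i j hij hj).1) _)
          · have h1 := hD (i, j) (mem_prs.2 ⟨hij, hj⟩)
            unfold Dd at h1
            refine le_trans (le_of_eq ?_) h1
            refine sum_congr rfl fun w _ => ?_
            simp only [BoundedContinuousFunction.coe_mul, Pi.mul_apply,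
              BoundedContinuousFunction.coe_sub, Pi.sub_apply]
            ring)
      have hmem : (fun i : Fin 4 => z i) ∈ Fintype.piFinset (fun _ : Fin 4 => range p) := by
        rw [Fintype.mem_piFinset]
        exact fun i => mem_range.2 (hz i)
      have h1 : η ^ 6 ≤ FP (fun j => cls (q j) (r j)) P' c 4 (a + sz S d (fun i : Fin 4 => z i)) := by
        unfold FP
        have e1 : η ^ 6 = ∏ j ∈ range 4, ((1 : ℝ) * ∏ _i ∈ range j, η) := by
          simp only [prod_range_succ, prod_range_zero]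
          ring
        rw [e1]
        refine prod_le_prod (fun j _ => by positivity) fun j hj => ?_
        have hj := mem_range.1 hj
        have hsz : ∀ i, i < 4 → sz S d (fun i : Fin 4 => z i) i = S i * d * z i := by
          intro i hi
          unfold sz
          rw [dif_pos hi]
        refine mul_le_mul ?_ ?_ (prod_nonneg fun _ _ => hη.le) ?_
        · rw [Pi.add_apply, cls_per, he j hj]
          rw [hsz j hj, mul_assoc]
          exact Dvd.dvd.mul_right (Int.natCast_dvd_natCast.2 (hqS j hj)) _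
        · refine prod_le_prod (fun _ _ => hη.le) fun i hi => ?_
          have hi := mem_range.1 hi
          have h3 := hz2 i j hi hj
          have h4 : (S j : ℤ) = c j i * S i := by exact_mod_cast (hc i j hi hj).2
          have e2 : (a + sz S d (fun i : Fin 4 => z i)) j - c j i * (a + sz S d (fun i : Fin 4 => z i)) i =
              a j - c j i * a i + S j * d * ((z j : ℤ) - z i) := by
            rw [Pi.add_apply, Pi.add_apply, hsz j hj, hsz i (by omega), h4]
            ring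
          rw [e2]
          exact h3.le
        · exact (ind_01 {a : ℤ | ((q j : ℕ) : ℤ) ∣ a - r j} _).1
      have h2 : FP (fun j => cls (q j) (r j)) P' c 4 (a + sz S d (fun i : Fin 4 => z i)) ≤
          ∑ z ∈ Fintype.piFinset (fun _ : Fin 4 => range p),
            FP (fun j => cls (q j) (r j)) P' c 4 (a + sz S d z) :=
        single_le_sum (f := fun z => FP (fun j => cls (q j) (r j)) P' c 4 (a + sz S d z))
          (fun z _ => (hF _).1) hmem
      refine le_trans ?_ (h1.trans h2)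
      refine mul_le_of_le_one_right (by positivity) ?_
      have h3 : 0 ≤ 1 / (η ^ 3 * p) * ∑ x ∈ prs, Dd ((P' x.2 - P x.2) * (P' x.2 - P x.2)) (S x.2) d p
          (a x.2 - c x.2 x.1 * a x.1) := mul_nonneg (by positivity) (sum_nonneg hD0)
      linarith
    · push Not at hD
      obtain ⟨x, hx, h1⟩ := hD
      refine le_trans ?_ hsum0
      refine mul_nonpos_of_nonneg_of_nonpos (by positivity) ?_
      have h2 := single_le_sum (f := fun x : ℕ × ℕ => Dd ((P' x.2 - P x.2) * (P' x.2 - P x.2)) (S x.2) d p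
        (a x.2 - c x.2 x.1 * a x.1)) hD0 hx
      have h3 : 1 ≤ 1 / (η ^ 3 * p) * ∑ x ∈ prs, Dd ((P' x.2 - P x.2) * (P' x.2 - P x.2)) (S x.2) d p
          (a x.2 - c x.2 x.1 * a x.1) := by
        rw [one_div, ← div_eq_inv_mul, le_div_iff₀ (by positivity), one_mul]
        exact h1.le.trans h2
      linarith
  · push Not at he
    obtain ⟨j, hj, h1⟩ := he
    have h2 : cls (q j) (r j) (a j) = 0 := by
      rcases cls_sp (q j) (r j) (a j) with h | h
      · exact absurd h.1 h1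
      · exact h.1
    have hW : ∏ j ∈ range 4, cls (q j) (r j) (a j) = 0 := prod_eq_zero (mem_range.2 hj) h2
    rw [hW]
    simp only [zero_mul, sum_const_zero, mul_zero, add_zero]
    exact hsum0

/-- TF-LOW -/
theorem low (hper : S_per) (hloc : S_loc4) (hcls : S_cls) : S_low4 := by
  intro m hm P q S c η hη h1 h2
  obtain ⟨P₀, hP₀⟩ := hper 4 P q S fun j hj => (h1 j hj).2
  obtain ⟨p, hpN, hp⟩ := Nat.exists_infinite_primes (max P₀ ⌈4 / η⌉₊)
  obtain ⟨d, hd⟩ := hP₀ p hp (le_trans (le_max_left _ _) hpN) η hη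
  have hp0 : (0 : ℝ) < p := by exact_mod_cast hp.pos
  have hηp : 4 ≤ η * p := by
    have h3 : (4 / η : ℝ) ≤ p := (Nat.le_ceil _).trans (by exact_mod_cast (le_max_right _ _).trans hpN)
    rw [div_le_iff₀ hη] at h3
    linarith
  obtain ⟨l, hl⟩ : ∃ l : ℕ, l = (p - 1) / 4 := ⟨_, rfl⟩
  have hp1 : 1 ≤ p := hp.one_lt.le
  have hl1 : 4 * l + 1 ≤ p := by omega
  have hl2 : (1 / 2 - 2 * η) * p ≤ 2 * l := by
    have h3 : p ≤ 4 * l + 4 := by omega
    have h4 : (p : ℝ) ≤ 4 * l + 4 := by exact_mod_cast h3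
    nlinarith
  have hq0 : ∀ j ∈ range 4, (0 : ℝ) < 1 / (q j : ℝ) := fun j hj => by
    have := (h1 j (mem_range.1 hj)).2.2.1
    have : (0 : ℝ) < q j := by exact_mod_cast this
    positivity
  have hQ : 0 < ∏ j ∈ range 4, (1 / (q j : ℝ)) := prod_pos hq0
  refine ⟨1 / 2 * (∏ j ∈ range 4, (1 / (q j : ℝ))) * ((p : ℝ) ^ 4)⁻¹ * η ^ 6, by positivity, ?_⟩
  intro P' r hP' h3
  have hF := fun b => FP_bd (e := fun j => cls (q j) (r j)) (c := c)
    (fun j x => ind_01 {a : ℤ | ((q j : ℕ) : ℤ) ∣ a - r j} x) hP' b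
  have hF1 : ∀ a, |FP (fun j => cls (q j) (r j)) P' c 4 a| ≤ 1 := fun a => by
    rw [abs_of_nonneg (hF a).1]
    exact (hF a).2
  -- averaging
  have e1 : (p : ℝ) ^ 4 * It m 4 (FP (fun j => cls (q j) (r j)) P' c 4) =
      It m 4 (fun a => ∑ z ∈ Fintype.piFinset (fun _ : Fin 4 => range p),
        FP (fun j => cls (q j) (r j)) P' c 4 (a + sz S d z)) := by
    rw [It_sum hm 4 (C := 1) _ _ (fun z _ a => hF1 _)]
    have : ∀ z ∈ Fintype.piFinset (fun _ : Fin 4 => range p),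
        It m 4 (fun a => FP (fun j => cls (q j) (r j)) P' c 4 (a + sz S d z)) =
          It m 4 (FP (fun j => cls (q j) (r j)) P' c 4) := fun z _ =>
      It_shift hm 4 hF1 (sz S d z) fun j hj => by
        unfold sz
        rw [dif_neg (by omega)]
    rw [sum_congr rfl this, sum_const, Fintype.card_piFinset_const, card_range, nsmul_eq_mul]
    push_cast
    simp
  -- pointwise bound
  have hA : ∀ j, 1 ≤ j → j < 4 → ∀ x : ℤ, (q j : ℤ) ∣ x - r j →
      (1 / 2 + 6 * η) * p ≤ ∑ z ∈ range p, P j (x + S j * d * z) := fun j hj hj5 x hx =>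
    lemA hcls (hm j) hη (h1 j hj5).2.2.1 (h1 j hj5).2.2.2.2 (hd j hj5).2 (h3 j hj hj5).1 hx
  have hpt := point hloc (P := P) (P' := P') (q := q) (S := S) (c := c) (r := r) (d := d) hη hp hl1 hl2
    (fun j hj => (h1 j hj).1) hP' (fun j hj => (h1 j hj).2.2.2.2) h2 (fun j hj => (hd j hj).1) hA
  -- the two parts
  obtain ⟨W, hW⟩ : ∃ W : (ℕ → ℤ) → ℝ, W = fun a => ∏ j ∈ range 4, cls (q j) (r j) (a j) := ⟨_, rfl⟩
  obtain ⟨T, hT⟩ : ∃ T : ℕ × ℕ → (ℕ → ℤ) → ℝ, T = fun x a =>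
    Dd ((P' x.2 - P x.2) * (P' x.2 - P x.2)) (S x.2) d p (a x.2 - c x.2 x.1 * a x.1) := ⟨_, rfl⟩
  have hcb : ∀ j x, |cls (q j) (r j) x| ≤ 1 := fun j x => by
    rcases cls_sp (q j) (r j) x with h | h
    · rw [h.1, abs_one]
    · rw [h.1, abs_zero]
      norm_num
  have hWb : ∀ a, |W a| ≤ 1 := by
    intro a
    rw [hW]
    simp only
    rw [Finset.abs_prod]
    exact prod_le_one (fun _ _ => abs_nonneg _) fun j _ => hcb j _
  have hgb : ∀ j < 4, ∀ x, 0 ≤ ((P' j - P j) * (P' j - P j)) x ∧ ((P' j - P j) * (P' j - P j)) x ≤ 1 := by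
    intro j hj x
    simp only [BoundedContinuousFunction.coe_mul, Pi.mul_apply, BoundedContinuousFunction.coe_sub,
      Pi.sub_apply]
    have b1 := (h1 j hj).1 x
    have b2 := hP' j hj x
    exact ⟨mul_self_nonneg _, by nlinarith [b1.1, b1.2, b2.1, b2.2]⟩
  have hTb : ∀ x ∈ prs, ∀ a, 0 ≤ T x a ∧ T x a ≤ 2 * p := by
    intro x hx a
    have hx5 := (mem_prs.1 hx).2
    rw [hT]
    exact Dd_bd (hgb x.2 hx5) _ _ _ _
  have hWT : ∀ x ∈ prs, ∀ a, |W a * T x a| ≤ 2 * p := by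
    intro x hx a
    rw [abs_mul, abs_of_nonneg (hTb x hx a).1]
    calc |W a| * T x a ≤ 1 * T x a := mul_le_mul_of_nonneg_right (hWb a) (hTb x hx a).1
      _ ≤ 2 * p := by rw [one_mul]; exact (hTb x hx a).2
  have hIW : It m 4 W = ∏ j ∈ range 4, (1 / (q j : ℝ)) := by
    rw [hW]
    refine It_prod hm 4 (fun j _ x => cls (q j) (r j) x) (C := 1) (fun j _ x => hcb j x)
      (fun _ _ _ _ _ => rfl) _ fun j hj _ => ?_
    rw [toB_coe, hcls.2.1 (m j) (hm j) (q j) (r j) (h1 j hj).2.2.1]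
  have hIT : ∀ x ∈ prs, It m 4 (fun a => W a * T x a) ≤
      (∏ j ∈ range 4, (1 / (q j : ℝ))) * (p * η ^ 3 / 20) := by
    rintro ⟨i, j⟩ hx
    obtain ⟨hij, hj5⟩ := mem_prs.1 hx
    have hqj : (0 : ℝ) < q j := by exact_mod_cast (h1 j hj5).2.2.1
    have e2 : (fun a => W a * T (i, j) a) = fun a => ∏ k ∈ range 4,
        (cls (q k) (r k) (a k) * (if k = j then Dd ((P' j - P j) * (P' j - P j)) (S j) d p
          (a k - c j i * a i) else 1)) := by
      funext a
      rw [prod_mul_distrib, hW, hT]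
      congr 1
      rw [prod_ite_eq', if_pos (mem_range.2 hj5)]
    rw [e2]
    have e3 := It_prod hm 4 (fun k a t => cls (q k) (r k) t *
      (if k = j then Dd ((P' j - P j) * (P' j - P j)) (S j) d p (t - c j i * a i) else 1))
      (C := 2 * p + 1) (fun k a t => by
        rw [abs_mul]
        have b1 := hcb k t
        have b2 : |(if k = j then Dd ((P' j - P j) * (P' j - P j)) (S j) d p (t - c j i * a i) else 1)| ≤
            2 * p + 1 := by
          split_ifs
          · have b3 := Dd_bd (hgb j hj5) (S j) d p (t - c j i * a i)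
            rw [abs_of_nonneg b3.1]
            linarith
          · rw [abs_one]
            linarith
        calc _ ≤ 1 * (2 * (p : ℝ) + 1) := mul_le_mul b1 b2 (abs_nonneg _) zero_le_one
          _ = _ := one_mul _)
      (fun k _ a b hab => by
        funext t
        by_cases hk : k = j
        · rw [if_pos hk, if_pos hk, hab i (by omega)]
        · rw [if_neg hk, if_neg hk])
      (fun k => (1 / (q k : ℝ)) * (if k = j then q j * (2 * p *
        m j (cls (q j) (r j) * ((P' j - P j) * (P' j - P j)))) else 1))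
      (fun k hk a => by
        by_cases hkj : k = j
        · subst hkj
          simp only [if_true]
          rw [lemB (hm k) (hgb k hj5) (h1 k hj5).2.2.2.2
            (Dvd.dvd.mul_right (Int.natCast_dvd_natCast.2 (h2 i k hij hj5).1) _)]
          field_simp
        · simp only [if_neg hkj, mul_one]
          rw [toB_coe, hcls.2.1 (m k) (hm k) (q k) (r k) (h1 k hk).2.2.1])
    rw [e3, prod_mul_distrib, prod_ite_eq', if_pos (mem_range.2 hj5)]
    refine mul_le_mul_of_nonneg_left ?_ hQ.le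
    have h4 := (h3 j (by omega) hj5).2
    rw [le_div_iff₀ hqj] at h4
    calc (q j : ℝ) * (2 * p * m j (cls (q j) (r j) * ((P' j - P j) * (P' j - P j))))
        = 2 * p * (m j (cls (q j) (r j) * ((P' j - P j) * (P' j - P j))) * q j) := by ring
      _ ≤ 2 * p * (η ^ 3 / 40) := mul_le_mul_of_nonneg_left h4 (by positivity)
      _ = p * η ^ 3 / 20 := by ring
  -- assembling
  have hSb : ∀ a, |∑ x ∈ prs, W a * T x a| ≤ 6 * (2 * p) := by
    intro a
    refine (abs_sum_le_sum_abs _ _).trans ?_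
    have := sum_le_card_nsmul prs (fun x => |W a * T x a|) (2 * p) (fun x hx => hWT x hx a)
    rw [prs_card, nsmul_eq_mul] at this
    exact_mod_cast this
  obtain ⟨κ, hκ⟩ : ∃ κ : ℝ, κ = 1 / (η ^ 3 * p) := ⟨_, rfl⟩
  have hκ0 : 0 ≤ κ := by
    rw [hκ]
    positivity
  rw [← hκ] at hpt
  have hSb2 : ∀ a, |(-κ) * ∑ x ∈ prs, W a * T x a| ≤ κ * (6 * (2 * (p : ℝ))) := fun a => by
    rw [abs_mul, abs_neg, abs_of_nonneg hκ0]
    exact mul_le_mul_of_nonneg_left (hSb a) hκ0
  have hRb : ∀ a, |W a + (-κ) * ∑ x ∈ prs, W a * T x a| ≤ 1 + κ * (6 * (2 * (p : ℝ))) := fun a =>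
    (abs_add_le _ _).trans (add_le_add (hWb a) (hSb2 a))
  have hRb2 : ∀ a, |η ^ 6 * (W a + (-κ) * ∑ x ∈ prs, W a * T x a)| ≤
      η ^ 6 * (1 + κ * (6 * (2 * (p : ℝ)))) := fun a => by
    rw [abs_mul, abs_of_nonneg (by positivity : (0 : ℝ) ≤ η ^ 6)]
    exact mul_le_mul_of_nonneg_left (hRb a) (by positivity)
  have hsumb : ∀ a : ℕ → ℤ, |∑ z ∈ Fintype.piFinset (fun _ : Fin 4 => range p),
      FP (fun j => cls (q j) (r j)) P' c 4 (a + sz S d z)| ≤
      (Fintype.piFinset (fun _ : Fin 4 => range p)).card * 1 := fun a => by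
    refine (abs_sum_le_sum_abs _ _).trans ?_
    have := sum_le_card_nsmul (Fintype.piFinset (fun _ : Fin 4 => range p))
      (fun z => |FP (fun j => cls (q j) (r j)) P' c 4 (a + sz S d z)|) 1 (fun z _ => hF1 _)
    rwa [nsmul_eq_mul] at this
  have e4 : It m 4 (fun a => η ^ 6 * (W a + (-κ) * ∑ x ∈ prs, W a * T x a)) ≤
      It m 4 (fun a => ∑ z ∈ Fintype.piFinset (fun _ : Fin 4 => range p),
        FP (fun j => cls (q j) (r j)) P' c 4 (a + sz S d z)) :=
    It_mono hm 4 hRb2 hsumb fun a => by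
      rw [hW, hT]
      exact hpt a
  rw [It_smul hm 4 hRb, It_add hm 4 hWb hSb2, It_smul hm 4 hSb, hIW,
    It_sum hm 4 prs (fun x a => W a * T x a) hWT, ← e1] at e4
  have e5 : ∑ x ∈ prs, It m 4 (fun a => W a * T x a) ≤
      6 * ((∏ j ∈ range 4, (1 / (q j : ℝ))) * (p * η ^ 3 / 20)) := by
    have := sum_le_card_nsmul prs _ _ hIT
    rw [prs_card, nsmul_eq_mul] at this
    exact_mod_cast this
  have e6 : κ * ∑ x ∈ prs, It m 4 (fun a => W a * T x a) ≤
      1 / 2 * ∏ j ∈ range 4, (1 / (q j : ℝ)) := by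
    refine (mul_le_mul_of_nonneg_left e5 hκ0).trans ?_
    have e9 : κ * (6 * ((∏ j ∈ range 4, (1 / (q j : ℝ))) * (p * η ^ 3 / 20))) =
        3 / 10 * ∏ j ∈ range 4, (1 / (q j : ℝ)) := by
      have hη3 : η ^ 3 * (p : ℝ) ≠ 0 := by positivity
      calc κ * (6 * ((∏ j ∈ range 4, (1 / (q j : ℝ))) * (p * η ^ 3 / 20))) =
          (1 / (η ^ 3 * p) * (η ^ 3 * p)) * (3 / 10 * ∏ j ∈ range 4, (1 / (q j : ℝ))) := by
            rw [hκ]; ring
        _ = _ := by rw [one_div, inv_mul_cancel₀ hη3, one_mul]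
    rw [e9]
    linarith
  have e7 : η ^ 6 * (1 / 2 * ∏ j ∈ range 4, (1 / (q j : ℝ))) ≤
      (p : ℝ) ^ 4 * It m 4 (FP (fun j => cls (q j) (r j)) P' c 4) := by
    refine le_trans (mul_le_mul_of_nonneg_left ?_ (by positivity)) e4
    linarith
  have e8 : 1 / 2 * (∏ j ∈ range 4, (1 / (q j : ℝ))) * ((p : ℝ) ^ 4)⁻¹ * η ^ 6 =
      ((p : ℝ) ^ 4)⁻¹ * (η ^ 6 * (1 / 2 * ∏ j ∈ range 4, (1 / (q j : ℝ)))) := by ring
  rw [e8]
  calc ((p : ℝ) ^ 4)⁻¹ * (η ^ 6 * (1 / 2 * ∏ j ∈ range 4, (1 / (q j : ℝ))))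
      ≤ ((p : ℝ) ^ 4)⁻¹ * ((p : ℝ) ^ 4 * It m 4 (FP (fun j => cls (q j) (r j)) P' c 4)) :=
        mul_le_mul_of_nonneg_left e7 (by positivity)
    _ = _ := by
      rw [← mul_assoc, inv_mul_cancel₀ (by positivity), one_mul]

end Pool.Agent.W25.TF.Low
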