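import Pool.Agent.W142.TF.All
import Pool.Agent.W25.TF.Loc
import Pool.Agent.W25.TF.Low
import Pool.Agent.W25.TF.MaiF

set_option autoImplicit false
open Filter Topology Finset

/-! Project TF4: one half of the multiples of every sufficiently divisible number, from a set which meets
the differences of any four classes. -/

namespace Pool.Agent.W25.TF

open Pool.Agent.H947R3.GM Pool.Agent.W59.GB Pool.Agent.W142.TF

theorem s_low4 : S_low4 := Pool.Agent.W25.TF.Low.low s_per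
  (Pool.Agent.W25.TF.Loc.loc (Pool.Agent.W140.TF.nul Pool.Agent.W284.TF.s_dys)) Pool.Agent.W681.TF.clss

theorem s_maiF4 : S_maiF4 := maiF Pool.Agent.W756.TF.ban s_appr Pool.Agent.W681.TF.clss
  Pool.Agent.W681.TF.lev s_low4 s_cmp Pool.Agent.W597.TF.blo

theorem tf4 (hmai : S_maiF4) (G : Set ℕ) (q : ℕ)
    (hG : ∃ K : ℕ, 1 ≤ K ∧ ∀ H : Fin 4 → Fin K → ℕ, AdmN q H →
      ∃ g g' i i', g ≠ g' ∧ H g i < H g' i' ∧ H g' i' - H g i ∈ G) (ε : ℝ) (hε : 0 < ε) :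
    ∃ M : ℕ, 0 < M ∧ ∀ N : ℕ, 0 < N → M ∣ N → ∃ L : ℕ, ∀ T : ℕ, L ≤ T → ∀ u : ℕ,
      (1 / 2 - ε) * T ≤ ({k : ℕ | u < k ∧ k ≤ u + T ∧ N * k ∈ G}.ncard : ℝ) := by
  classical
  obtain ⟨K, hK, hcon⟩ := hG
  refine windows G (4 * K).factorial (Nat.factorial_pos _) (1 / 2) ε fun hall => ?_
  obtain ⟨Q, A, hQ, hinj, hcr⟩ := hmai {k : ℤ | (((4 * K).factorial : ℕ) : ℤ) * k ∈ Cpl G} ε hε
    (fun M hM => by
      obtain ⟨Q, h1, h2, h3⟩ := hall M hM
      refine ⟨Q, h1, h2, fun L₀ => ?_⟩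
      obtain ⟨L, hL, u, hu⟩ := h3 L₀
      refine ⟨L, hL, u, le_trans (le_of_eq ?_) hu⟩
      norm_num) K
  obtain ⟨H, C, hH⟩ := points 4 K (4 * K).factorial Q A
  have hadm : AdmN q H := admN_of (Nat.factorial_pos _) (fun p hp hle => Nat.dvd_factorial hp.pos hle) Q A hQ hinj
    (fun i j hij hj k k' hk hk' h0 => by
      have h := hcr i j hij hj k k' hk hk'
      rw [h0] at h
      exact h.1 (mul_zero _)) H C hH
  obtain ⟨g, g', i, i', hne, hlt, hG⟩ := hcon H hadm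
  rcases lt_or_gt_of_ne hne with h | h
  · have := not_Cpl C (hH g' i') (hH g i) (hcr g g' h g'.2 i' i i'.2 i.2)
    exact this.2.2 hlt hG
  · have := not_Cpl C (hH g i) (hH g' i') (hcr g' g h g.2 i i' i.2 i'.2)
    exact this.2.1 hlt hG

end Pool.Agent.W25.TF
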